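import Pool.Agent.P8H50.NK.Stm2

/-!
# Project NK (helper50), package WTSF: existence of Nochka weights over any field
-/

set_option autoImplicit false

namespace Pool.Agent.P8H52.NK

open Pool.Agent.N750 Pool.Agent.P8H50.NK

/-- Nochka weights, with the lower bound for the constant (proof copied from N750.Noch). -/
theorem exists_weights2 {C : Type} [DecidableEq C] [Fintype C] (r : Finset C → ℕ) (h0 : r ∅ = 0)
    (hmono : ∀ A B, A ⊆ B → r A ≤ r B)
    (hsub : ∀ A B, r (A ∪ B) + r (A ∩ B) ≤ r A + r B) (hcard : ∀ A, r A ≤ A.card)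
    (w N : ℕ) (hw : ∀ A, r A ≤ w + 1)
    (hN : ∀ A, r A ≤ w → A.card ≤ N + r A) :
    ∃ (θ : ℝ) (ω : C → ℝ), 0 < θ ∧ (∀ c, 0 ≤ ω c) ∧ (∀ c, ω c ≤ θ) ∧
      (∀ A, r A ≤ w → ∑ c ∈ A, ω c ≤ r A) ∧
      θ * ((Fintype.card C : ℝ) - (2 * N + w + 1)) + (w + 1) ≤ ∑ c, ω c ∧
      (w : ℝ) + 1 ≤ θ * (2 * N + w + 1) := by
  classical
  -- the slopes
  have hden : ∀ A, r A ≤ w → (1 : ℝ) ≤ 2 * N + w + 1 - A.card := by
    intro A hA
    have h1 := hN A hA
    have h2 : (A.card : ℝ) ≤ N + w := by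
      have : A.card ≤ N + w := by omega
      exact_mod_cast this
    have : (0 : ℝ) ≤ N := Nat.cast_nonneg _
    linarith
  obtain ⟨F0, hF0m, hF0⟩ := Finset.exists_max_image (Finset.univ.filter fun A : Finset C => r A ≤ w)
    (fun A => ((w : ℝ) + 1 - r A) / (2 * N + w + 1 - A.card))
    ⟨∅, Finset.mem_filter.2 ⟨Finset.mem_univ _, by rw [h0]; exact Nat.zero_le _⟩⟩
  rw [Finset.mem_filter] at hF0m
  have hF0w := hF0m.2
  set θ : ℝ := ((w : ℝ) + 1 - r F0) / (2 * N + w + 1 - F0.card) with hθ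
  have hd0 := hden F0 hF0w
  have hrF0 : (r F0 : ℝ) ≤ w := by exact_mod_cast hF0w
  have hθ0 : 0 < θ := div_pos (by linarith) (by linarith)
  have hθeq : (w : ℝ) + 1 - r F0 = θ * (2 * N + w + 1 - F0.card) := by
    rw [hθ, div_mul_cancel₀]
    linarith
  have hmax : ∀ A, r A ≤ w → (w : ℝ) + 1 - r A ≤ θ * (2 * N + w + 1 - A.card) := by
    intro A hA
    have h1 := hF0 A (Finset.mem_filter.2 ⟨Finset.mem_univ _, hA⟩)
    have h2 := hden A hA
    rwa [div_le_iff₀ (by linarith)] at h1
  obtain ⟨ω, h1, h2, h3, T, hT, hT1, hT2⟩ := exists_box (fun A => (r A : ℝ)) (by simp [h0])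
    (fun A B h => by exact_mod_cast hmono A B h) (fun A B => by exact_mod_cast hsub A B) θ hθ0.le F0
  -- the total weight on `F0`
  have htot : (r F0 : ℝ) ≤ ∑ c ∈ F0, ω c := by
    have a1 : ∑ c ∈ F0, ω c = ∑ c ∈ F0 \ T, ω c + ∑ c ∈ T, ω c := (Finset.sum_sdiff hT).symm
    have a2 : ∑ c ∈ F0 \ T, ω c = ((F0.card : ℝ) - T.card) * θ := by
      rw [Finset.sum_congr rfl (fun c hc => hT2 c (Finset.mem_sdiff.1 hc).1
        (Finset.mem_sdiff.1 hc).2), Finset.sum_const, nsmul_eq_mul, Finset.card_sdiff_of_subset hT,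
        Nat.cast_sub (Finset.card_le_card hT)]
    have a3 := hmax T ((hmono T F0 hT).trans hF0w)
    rw [a1, a2, hT1]
    have : (r F0 : ℝ) - r T ≤ θ * (F0.card - T.card) := by
      have e1 : θ * ((F0.card : ℝ) - T.card) = θ * (2 * N + w + 1 - T.card) -
        θ * (2 * N + w + 1 - F0.card) := by ring
      rw [e1, ← hθeq]
      linarith
    linarith
  set ω' : C → ℝ := fun c => if c ∈ F0 then ω c else θ with hω'
  have hempty : (w : ℝ) + 1 ≤ θ * (2 * N + w + 1) := by
    have h := hmax ∅ (by rw [h0]; exact Nat.zero_le _)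
    rw [h0, Finset.card_empty, Nat.cast_zero, sub_zero, sub_zero] at h
    exact h
  refine ⟨θ, ω', hθ0, ?_, ?_, ?_, ?_, hempty⟩
  · intro c
    rw [hω']
    dsimp only
    split_ifs
    · exact h1 c
    · exact hθ0.le
  · intro c
    rw [hω']
    dsimp only
    split_ifs
    · exact h2 c
    · exact le_rfl
  · intro A hA
    have a1 : ∑ c ∈ A, ω' c = ∑ c ∈ A ∩ F0, ω c + ((A \ F0).card : ℝ) * θ := by
      rw [← Finset.sum_inter_add_sum_sdiff A F0 ω']
      congr 1
      · refine Finset.sum_congr rfl fun c hc => ?_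
        rw [hω']
        exact if_pos (Finset.mem_inter.1 hc).2
      · rw [← nsmul_eq_mul, ← Finset.sum_const]
        refine Finset.sum_congr rfl fun c hc => ?_
        rw [hω']
        exact if_neg (Finset.mem_sdiff.1 hc).2
    have a2 : ∑ c ∈ A ∩ F0, ω c ≤ r (A ∩ F0) := h3 _ Finset.inter_subset_right
    have a3 : (r (A ∪ F0) : ℝ) + r (A ∩ F0) ≤ r A + r F0 := by exact_mod_cast hsub A F0
    have a4 : ((A \ F0).card : ℝ) = (A ∪ F0).card - F0.card := by
      have := Finset.card_sdiff_add_card A F0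
      have h5 : ((A \ F0).card : ℝ) + F0.card = (A ∪ F0).card := by exact_mod_cast this
      linarith
    have key : ((A \ F0).card : ℝ) * θ ≤ r A - r (A ∩ F0) := by
      by_cases hcase : r (A ∪ F0) ≤ w
      · have b1 := hmax _ hcase
        rw [a4]
        have e1 : (((A ∪ F0).card : ℝ) - F0.card) * θ = θ * (2 * N + w + 1 - F0.card) -
          θ * (2 * N + w + 1 - (A ∪ F0).card) := by ring
        rw [e1, ← hθeq]
        linarith
      · have b1 : r (A ∪ F0) = w + 1 := le_antisymm (hw _) (by omega)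
        have b2 : (r (A ∪ F0) : ℝ) = w + 1 := by rw [b1]; push_cast; ring
        set g : ℝ := r A - r (A ∩ F0) with hg
        have b3 : (w : ℝ) + 1 - r F0 ≤ g := by
          rw [hg]
          linarith
        have b4 : ((A \ F0).card : ℝ) ≤ N + g := by
          have c1 := hN A hA
          have c2 := Finset.card_sdiff_add_card_inter A F0
          have c3 : r (A ∩ F0) ≤ (A ∩ F0).card := hcard _
          have c4 : ((A \ F0).card : ℝ) + (A ∩ F0).card = A.card := by exact_mod_cast c2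
          have c5 : (A.card : ℝ) ≤ N + r A := by exact_mod_cast c1
          have c6 : (r (A ∩ F0) : ℝ) ≤ (A ∩ F0).card := by exact_mod_cast c3
          rw [hg]
          linarith
        have b5 : (F0.card : ℝ) ≤ N + r F0 := by exact_mod_cast hN F0 hF0w
        have hN0 : (0 : ℝ) ≤ N := Nat.cast_nonneg _
        -- `θ ≤ (w + 1 - ρ) / (N + (w + 1 - ρ))`
        set u : ℝ := (w : ℝ) + 1 - r F0 with hu
        have hu1 : 1 ≤ u := by rw [hu]; linarith
        have b6 : θ * (N + u) ≤ u := by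
          have c1 : θ * (N + u) ≤ θ * (2 * N + w + 1 - F0.card) :=
            mul_le_mul_of_nonneg_left (by linarith) hθ0.le
          linarith
        have b7 : ((A \ F0).card : ℝ) * θ ≤ (N + g) * θ := mul_le_mul_of_nonneg_right b4 hθ0.le
        refine b7.trans ?_
        -- `(N + g) θ ≤ g`
        have b8 : 0 < N + u := by linarith
        have b9 : ((N + g) * θ) * (N + u) ≤ g * (N + u) := by
          have : ((N + g) * θ) * (N + u) = (N + g) * (θ * (N + u)) := by ring
          rw [this]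
          have c1 : (N + g) * (θ * (N + u)) ≤ (N + g) * u :=
            mul_le_mul_of_nonneg_left b6 (by linarith)
          nlinarith [mul_le_mul_of_nonneg_left b3 hN0]
        exact le_of_mul_le_mul_right b9 b8
    rw [a1]
    linarith
  · have a1 : ∑ c, ω' c = ∑ c ∈ F0, ω c + ((Fintype.card C : ℝ) - F0.card) * θ := by
      rw [← Finset.sum_add_sum_compl F0 ω']
      congr 1
      · refine Finset.sum_congr rfl fun c hc => ?_
        rw [hω']
        exact if_pos hc
      · rw [← Nat.cast_sub (Finset.card_le_univ _), ← Finset.card_compl, ← nsmul_eq_mul,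
          ← Finset.sum_const]
        refine Finset.sum_congr rfl fun c hc => ?_
        rw [hω']
        exact if_neg (Finset.mem_compl.1 hc)
    rw [a1]
    have e1 : θ * ((Fintype.card C : ℝ) - (2 * N + w + 1)) =
      ((Fintype.card C : ℝ) - F0.card) * θ - θ * (2 * N + w + 1 - F0.card) := by ring
    rw [e1, ← hθeq]
    linarith


theorem rk_le {k : Type} [Field k] {n q : ℕ} (M : Fin q → Fin n → k) (A : Finset (Fin q)) :
    rk k M A ≤ n := by
  unfold rk
  exact (Submodule.finrank_le _).trans (by rw [Module.finrank_fin_fun])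

theorem wtsf : S_WTSF := by
  classical
  intro k _ n q t M hn hnt htq hA
  obtain ⟨A0, hA0⟩ : ∃ A : Finset (Fin q), A.card = t + 1 := by
    obtain ⟨A, _, hA⟩ := Finset.exists_superset_card_eq (s := (∅ : Finset (Fin q))) (n := t + 1)
      (by simp) (by rw [Fintype.card_fin]; omega)
    exact ⟨A, hA⟩
  have hN : ∀ A : Finset (Fin q), rk k M A ≤ n - 1 → A.card ≤ (t + 1 - n) + rk k M A := by
    intro A hAr
    have hlt : A.card ≤ t := by
      by_contra hc
      obtain ⟨B, hB, hBc⟩ := Finset.exists_subset_card_eq (s := A) (n := t + 1) (by omega)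
      have h1 := rk_mono (F := k) M B A hB
      rw [hA B hBc] at h1
      omega
    obtain ⟨A', hAA', hA'c⟩ := Finset.exists_superset_card_eq (s := A) (n := t + 1)
      (by omega) (by rw [Fintype.card_fin]; omega)
    have h1 := rk_sub (F := k) M A (A' \ A)
    rw [Finset.union_sdiff_of_subset hAA', hA A' hA'c] at h1
    have h2 := rk_card (F := k) M (A' \ A)
    rw [Finset.card_sdiff_of_subset hAA', hA'c] at h2
    omega
  obtain ⟨θ, ω, hθ, hω0, _, hωA, hsum, hθ2⟩ := exists_weights2 (rk k M) (rk_empty M)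
    (rk_mono M) (rk_sub M) (rk_card M) (n - 1) (t + 1 - n)
    (fun A => by rw [Nat.sub_add_cancel hn]; exact rk_le M A) hN
  have e1 : ((n - 1 : ℕ) : ℝ) = n - 1 := by rw [Nat.cast_sub hn]; norm_num
  have e2 : ((t + 1 - n : ℕ) : ℝ) = t + 1 - n := by rw [Nat.cast_sub hnt]; push_cast; ring
  rw [Fintype.card_fin, e1, e2] at hsum
  rw [e1, e2] at hθ2
  refine ⟨ω, ⟨hω0, fun A h => hωA A (by omega), ?_⟩, ?_⟩
  · exact le_antisymm (rk_le M _)
      ((hA A0 hA0).symm.le.trans (rk_mono M _ _ (Finset.subset_univ _)))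
  · have hn1 : (1 : ℝ) ≤ n := by exact_mod_cast hn
    have hnt1 : (n : ℝ) ≤ t + 1 := by exact_mod_cast hnt
    have htq1 : (2 : ℝ) * t + 1 ≤ q := by exact_mod_cast htq
    have hD : (0 : ℝ) < 2 * t - n + 2 := by linarith
    rw [div_le_iff₀ hD]
    have h3 : (n : ℝ) ≤ θ * (2 * t - n + 2) := by
      have : θ * (2 * ((t : ℝ) + 1 - n) + (n - 1) + 1) = θ * (2 * t - n + 2) := by ring
      rw [this] at hθ2
      linarith
    have h4 : θ * ((q : ℝ) - (2 * t - n + 2)) ≤ ∑ j, ω j - n := by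
      have : θ * ((q : ℝ) - (2 * ((t : ℝ) + 1 - n) + (n - 1) + 1)) =
        θ * ((q : ℝ) - (2 * t - n + 2)) := by ring
      rw [this] at hsum
      linarith
    have h5 : (0 : ℝ) ≤ (q : ℝ) - (2 * t - n + 2) := by linarith
    calc (n : ℝ) * (q - (2 * t - n + 2)) ≤ θ * (2 * t - n + 2) * (q - (2 * t - n + 2)) :=
          mul_le_mul_of_nonneg_right h3 h5
      _ = θ * (q - (2 * t - n + 2)) * (2 * t - n + 2) := by ring
      _ ≤ (∑ j, ω j - n) * (2 * t - n + 2) := mul_le_mul_of_nonneg_right h4 hD.le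

end Pool.Agent.P8H52.NK
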