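import Pool.Agent.P8H50.NK.Stm

/-!
# Project NK (helper50), package CHR: the characteristic of the quotient of two linear forms
-/

set_option autoImplicit false

namespace Pool.Agent.P8H52.NK

open MeasureTheory Set Filter Topology Metric Real ValueDistribution MeromorphicOn
open Pool.Agent.N131.SR (NZ)
open Pool.Agent.Helper160.Nev (circleAverage_mono_codiscrete)
open Pool.Agent.H159R3.NV (L mero_of_diff ci_log ci_posLog ne_cod)
open Pool.Agent.P8H10.GC (nz_of_diff nz_div logCounting_entire)
open Pool.Agent.P8H50.NK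

lemma char_le' {f g : ℂ → ℂ} (hf : Differentiable ℂ f) (hg : Differentiable ℂ g)
    (hf0 : ∃ z, f z ≠ 0) (hg0 : ∃ z, g z ≠ 0) {N : ℂ → ℝ} (hNc : Continuous N)
    (hNp : ∀ z, 0 < N z) {C : ℝ} (hC : 1 ≤ C) (h1 : ∀ z, ‖f z‖ ≤ C * N z)
    (h2 : ∀ z, ‖g z‖ ≤ C * N z) :
    ∃ C0 : ℝ, 0 ≤ C0 ∧ ∀ r : ℝ, 1 ≤ r → characteristic (fun z => f z / g z) ⊤ r ≤
      circleAverage (fun z => Real.log (N z)) 0 r + C0 := by
  have hfm := mero_of_diff hf
  have hgm := mero_of_diff hg
  have e : (fun z => f z / g z) = f * g⁻¹ := by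
    funext z; simp [div_eq_mul_inv]
  refine ⟨|Real.log C - Real.log ‖meromorphicTrailingCoeffAt g 0‖|, abs_nonneg _, fun r hr => ?_⟩
  have hr0 : r ≠ 0 := by linarith
  have hc : characteristic (fun z => f z / g z) ⊤ r =
      circleAverage (fun z => log⁺ ‖f z / g z‖) 0 r + logCounting (fun z => f z / g z) ⊤ r := by
    unfold characteristic
    rw [Pi.add_apply, proximity_top]
  have hcount : logCounting (fun z => f z / g z) ⊤ r ≤
      circleAverage (fun z => Real.log ‖g z‖) 0 r - Real.log ‖meromorphicTrailingCoeffAt g 0‖ := by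
    rw [e]
    refine (logCounting_mul_top_le hr hfm (nz_of_diff hf hf0) hgm.inv (fun z => ?_)).trans ?_
    · rw [meromorphicOrderAt_inv]
      intro h
      have := nz_of_diff hg hg0 z
      obtain ⟨n, hn⟩ := WithTop.ne_top_iff_exists.1 this
      rw [← hn] at h
      exact absurd h (by exact WithTop.coe_ne_top (a := -n))
    · rw [Pi.add_apply, logCounting_entire hf, logCounting_inv]
      have h3 := logCounting_zero_sub_logCounting_top_eq_circleAverage_sub_const hgm hr0
      rw [logCounting_entire hg, sub_zero] at h3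
      rw [h3]
      simp
  have hpos : circleAverage (fun z => log⁺ ‖f z / g z‖) 0 r +
      circleAverage (fun z => Real.log ‖g z‖) 0 r ≤
      circleAverage (fun z => Real.log (N z)) 0 r + Real.log C := by
    have i1 : CircleIntegrable (fun z => log⁺ ‖f z / g z‖) 0 r := by
      have : Meromorphic (fun z => f z / g z) := by rw [e]; exact hfm.mul hgm.inv
      exact ci_posLog this r
    have i2 := ci_log hgm r
    have i3 : CircleIntegrable (fun z => Real.log (N z)) 0 r := by
      apply ContinuousOn.circleIntegrable'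
      apply ContinuousOn.log
      · exact hNc.continuousOn
      · intro z _
        exact (hNp z).ne'
    have i4 : CircleIntegrable (fun _ : ℂ => Real.log C) 0 r := circleIntegrable_const _ _ _
    rw [← circleAverage_fun_add i1 i2]
    have e2 : circleAverage (fun z => Real.log (N z)) 0 r + Real.log C =
        circleAverage (fun z => Real.log (N z) + Real.log C) 0 r := by
      rw [circleAverage_fun_add i3 i4, circleAverage_const]
    rw [e2]
    refine circleAverage_mono_codiscrete hr0 (i1.add i2) (i3.add i4) ?_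
    obtain ⟨w, hw⟩ := hg0
    filter_upwards [ne_cod hg hw r] with z hz
    have hgp : 0 < ‖g z‖ := norm_pos_iff.2 hz
    have hn := hNp z
    have hCp : 0 < C := by linarith
    rw [← Real.log_mul hn.ne' hCp.ne', mul_comm (N z) C]
    rcases eq_or_ne (f z) 0 with h0 | h0
    · rw [h0, zero_div, norm_zero]
      have e3 : log⁺ (0 : ℝ) = 0 := by rw [posLog_apply]; simp
      rw [e3, zero_add]
      exact Real.log_le_log hgp (h2 z)
    have hfp : 0 < ‖f z‖ := norm_pos_iff.2 h0
    rw [posLog_apply]
    rcases le_total 0 (Real.log ‖f z / g z‖) with h | h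
    · rw [max_eq_right h, norm_div]
      rw [Real.log_div hfp.ne' hgp.ne', sub_add_cancel]
      exact Real.log_le_log hfp (h1 z)
    · rw [max_eq_left h, zero_add]
      exact Real.log_le_log hgp (h2 z)
  have habs := le_abs_self (Real.log C - Real.log ‖meromorphicTrailingCoeffAt g 0‖)
  rw [hc]
  linarith

theorem nm_cont {n : ℕ} {f : Fin n → ℂ → ℂ} (hf : Crv f) : Continuous (nm f) :=
  (continuous_pi fun i => (hf.diff i).continuous).norm

theorem nm_pos {n : ℕ} {f : Fin n → ℂ → ℂ} (hf : Crv f) (z : ℂ) : 0 < nm f z := by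
  obtain ⟨i, hi⟩ := hf.nz z
  refine norm_pos_iff.2 fun h => hi ?_
  exact congrFun h i

theorem lf_le {n : ℕ} (a : Fin n → ℂ) (f : Fin n → ℂ → ℂ) (z : ℂ) :
    ‖lf a f z‖ ≤ (∑ i, ‖a i‖) * nm f z := by
  unfold lf
  refine (norm_sum_le _ _).trans ?_
  rw [Finset.sum_mul]
  refine Finset.sum_le_sum fun i _ => ?_
  rw [norm_mul]
  exact mul_le_mul_of_nonneg_left (norm_le_pi_norm (fun i => f i z) i) (norm_nonneg _)

theorem lf_diff {n : ℕ} (a : Fin n → ℂ) {f : Fin n → ℂ → ℂ} (hf : ∀ i, Differentiable ℂ (f i)) :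
    Differentiable ℂ (lf a f) := by
  unfold lf
  exact Differentiable.fun_sum fun i _ => (hf i).const_mul _

theorem chr : S_CHR := by
  intro n f hf a b ha hb
  have h0 : ∀ a : Fin n → ℂ, 0 ≤ ∑ i, ‖a i‖ := fun a =>
    Finset.sum_nonneg fun i _ => norm_nonneg _
  have ha0 := h0 a
  have hb0 := h0 b
  exact char_le' (lf_diff a hf.diff) (lf_diff b hf.diff) ha hb (nm_cont hf) (nm_pos hf)
    (C := 1 + ∑ i, ‖a i‖ + ∑ i, ‖b i‖) (by linarith)
    (fun z => (lf_le a f z).trans (mul_le_mul_of_nonneg_right (by linarith) (nm_pos hf z).le))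
    (fun z => (lf_le b f z).trans (mul_le_mul_of_nonneg_right (by linarith) (nm_pos hf z).le))

end Pool.Agent.P8H52.NK
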