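import Pool.Agent.P8H50.NK.Stm
import Pool.Agent.N131.SR.Small

/-!
# Project NK (helper50), package LDH: the lemma on higher logarithmic derivatives
-/

set_option autoImplicit false

namespace Pool.Agent.P8H52.NK

open MeasureTheory Set Filter Topology Metric Real ValueDistribution MeromorphicOn
open Pool.Agent.N131.SR (NZ nz_or NZ.ne char_zero prox_zero prox_mul char_deriv ldl)
open Pool.Agent.TH143.EL (codis_ev codis_of_ev)
open Pool.Agent.P8H50.NK

theorem mero_iter {g : ℂ → ℂ} (hg : Meromorphic g) (s : ℕ) : Meromorphic (iteratedDeriv s g) := by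
  induction s with
  | zero => rw [iteratedDeriv_zero]; exact hg
  | succ s ih => rw [iteratedDeriv_succ]; exact ih.deriv

theorem deriv_zero_codis {h : ℂ → ℂ} (h1 : ∀ᶠ z in codiscrete ℂ, h z = 0) :
    ∀ᶠ z in codiscrete ℂ, deriv h z = 0 := by
  apply codis_of_ev
  intro z
  have h2 := codis_ev h1 z
  rw [← eventually_eventually_nhdsWithin] at h2
  filter_upwards [h2, self_mem_nhdsWithin] with w hw hwz
  rw [isOpen_compl_singleton.nhdsWithin_eq hwz] at hw
  have h3 : h =ᶠ[𝓝 w] fun _ => (0 : ℂ) := hw
  rw [h3.deriv_eq]
  simp

theorem log_bound {C T r : ℝ} (hC : 0 ≤ C) (hT : 0 ≤ T) (hr : 1 ≤ r) {X : ℝ} (hX0 : 0 ≤ X)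
    (hX : X ≤ C * (1 + T + log r + log (1 + T))) :
    log (1 + X) ≤ log (2 * (1 + C)) + log (1 + T) + log r := by
  have hlr : 0 ≤ log r := log_nonneg hr
  have hlr2 : log r ≤ r - 1 := log_le_sub_one_of_pos (by linarith)
  have hlT : 0 ≤ log (1 + T) := log_nonneg (by linarith)
  have hlT2 : log (1 + T) ≤ T := by
    have := log_le_sub_one_of_pos (x := 1 + T) (by linarith)
    linarith
  have h1 : 1 + T + log r + log (1 + T) ≤ 2 * ((1 + T) * r) := by nlinarith
  have h2 : 1 + X ≤ 2 * (1 + C) * (1 + T) * r := by
    have h3 : 1 ≤ 1 + T + log r + log (1 + T) := by linarith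
    have h4 : 1 + X ≤ (1 + C) * (1 + T + log r + log (1 + T)) := by nlinarith
    have h5 : (1 + C) * (1 + T + log r + log (1 + T)) ≤ (1 + C) * (2 * ((1 + T) * r)) :=
      mul_le_mul_of_nonneg_left h1 (by linarith)
    calc 1 + X ≤ _ := h4.trans h5
      _ = _ := by ring
  have h6 := log_le_log (by linarith) h2
  rw [log_mul (by positivity) (by positivity), log_mul (by positivity) (by positivity)] at h6
  exact h6

theorem ldh_aux {g : ℂ → ℂ} (hg : Meromorphic g) (h0 : NZ g) (s : ℕ) :
    ∃ (E : Set ℝ) (C : ℝ), volume E < ⊤ ∧ 0 ≤ C ∧ ∀ r, 1 ≤ r → r ∉ E →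
      proximity (fun z => iteratedDeriv s g z / g z) ⊤ r ≤
        C * (1 + log r + log (1 + characteristic g ⊤ r)) ∧
      characteristic (iteratedDeriv s g) ⊤ r ≤
        C * (1 + characteristic g ⊤ r + log r + log (1 + characteristic g ⊤ r)) := by
  induction s with
  | zero =>
    refine ⟨∅, 1, by simp, zero_le_one, fun r hr _ => ?_⟩
    have hT : 0 ≤ characteristic g ⊤ r := characteristic_nonneg hr
    have hlr : 0 ≤ log r := log_nonneg hr
    have hlT : 0 ≤ log (1 + characteristic g ⊤ r) := log_nonneg (by linarith)
    constructor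
    · have h1 : proximity (fun z => iteratedDeriv 0 g z / g z) ⊤ r = 0 := by
        rw [proximity_top]
        have : (fun z => log⁺ ‖iteratedDeriv 0 g z / g z‖) = fun _ => (0 : ℝ) := by
          funext z
          rw [iteratedDeriv_zero]
          rcases eq_or_ne (g z) 0 with h | h
          · rw [h]; simp [posLog_apply]
          · rw [div_self h]; simp [posLog_apply]
        rw [this, circleAverage_const]
      rw [h1]
      nlinarith
    · rw [iteratedDeriv_zero]
      linarith
  | succ s ih =>
    obtain ⟨E, C, hE, hC, hb⟩ := ih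
    have hm := mero_iter hg s
    rcases nz_or hm with h1 | h1
    · obtain ⟨E', C', hE', hC', hb'⟩ := ldl hm h1
      have hl2 : 0 ≤ log (2 * (1 + C)) := log_nonneg (by linarith)
      set D : ℝ := C' * (2 + log (2 * (1 + C))) with hD
      have hD0 : 0 ≤ D := by positivity
      refine ⟨E ∪ E', 2 * C + D, ?_, by positivity, fun r hr hrE => ?_⟩
      · exact (measure_union_le _ _).trans_lt (ENNReal.add_lt_top.2 ⟨hE, hE'⟩)
      · have hr0 : r ≠ 0 := by linarith
        obtain ⟨k1, k2⟩ := hb r hr (fun h => hrE (Or.inl h))
        have k3 := hb' r hr (fun h => hrE (Or.inr h))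
        set T := characteristic g ⊤ r with hTdef
        have hT : 0 ≤ T := characteristic_nonneg hr
        have hlr : 0 ≤ log r := log_nonneg hr
        have hlT : 0 ≤ log (1 + T) := log_nonneg (by linarith)
        have hT' : 0 ≤ characteristic (iteratedDeriv s g) ⊤ r := characteristic_nonneg hr
        have k4 := log_bound hC hT hr hT' k2
        have k5 : proximity (logDeriv (iteratedDeriv s g)) ⊤ r ≤ D * (1 + log r + log (1 + T)) := by
          refine k3.trans ?_
          rw [hD, mul_assoc]
          apply mul_le_mul_of_nonneg_left _ hC'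
          nlinarith [mul_nonneg hl2 hlr, mul_nonneg hl2 hlT]
        constructor
        · have h2 : proximity (fun z => iteratedDeriv (s + 1) g z / g z) ⊤ r =
              proximity (fun z => logDeriv (iteratedDeriv s g) z *
                (iteratedDeriv s g z / g z)) ⊤ r := by
            apply proximity_congr_codiscrete _ hr0
            filter_upwards [NZ.ne hm h1] with z hz
            rw [iteratedDeriv_succ, logDeriv_apply]
            field_simp
          have hmq : Meromorphic (fun z => iteratedDeriv s g z / g z) := by
            have e : (fun z => iteratedDeriv s g z / g z) = iteratedDeriv s g * g⁻¹ := by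
              funext z; simp [div_eq_mul_inv]
            rw [e]; exact hm.mul hg.inv
          have hml : Meromorphic (logDeriv (iteratedDeriv s g)) := by
            have e : logDeriv (iteratedDeriv s g) =
                deriv (iteratedDeriv s g) * (iteratedDeriv s g)⁻¹ := by
              funext z; simp [logDeriv_apply, div_eq_mul_inv]
            rw [e]; exact hm.deriv.mul hm.inv
          rw [h2]
          refine (prox_mul hml hmq r).trans ?_
          have : 0 ≤ C * (1 + log r + log (1 + T)) := by positivity
          linarith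
        · rw [iteratedDeriv_succ]
          have k6 := char_deriv hm hr
          have k7 : D * (1 + log r + log (1 + T)) ≤ D * (1 + T + log r + log (1 + T)) :=
            mul_le_mul_of_nonneg_left (by linarith) hD0
          linarith
    · have h2 : ∀ᶠ z in codiscrete ℂ, iteratedDeriv (s + 1) g z = 0 := by
        rw [iteratedDeriv_succ]; exact deriv_zero_codis h1
      refine ⟨∅, 1, by simp, zero_le_one, fun r hr _ => ?_⟩
      have hr0 : r ≠ 0 := by linarith
      have hT : 0 ≤ characteristic g ⊤ r := characteristic_nonneg hr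
      have hlr : 0 ≤ log r := log_nonneg hr
      have hlT : 0 ≤ log (1 + characteristic g ⊤ r) := log_nonneg (by linarith)
      constructor
      · rw [prox_zero (a := fun z => iteratedDeriv (s + 1) g z / g z) (by
          filter_upwards [h2] with z hz
          rw [hz, zero_div]) hr0]
        linarith
      · rw [char_zero h2 hr0]
        linarith

theorem ldh : S_LDH := by
  intro g hg h0 s
  obtain ⟨E, C, hE, hC, hb⟩ := ldh_aux hg h0 s
  exact ⟨E, C, hE, hC, fun r hr hrE => (hb r hr hrE).1⟩

end Pool.Agent.P8H52.NK
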