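import Pool.Agent.P8H52.NK.Chr

/-!
# Project NK (helper50), package PRX: the proximity of the Wronskian over the product
-/

set_option autoImplicit false

namespace Pool.Agent.P8H52.NK

open MeasureTheory Set Filter Topology Metric Real ValueDistribution MeromorphicOn
open Pool.Agent.N131.SR (NZ)
open Pool.Agent.Helper160.Nev (circleAverage_mono_codiscrete ca_const_mul ci_const_mul)
open Pool.Agent.H159R3.NV (L mero_of_diff ci_log ci_posLog ne_cod)
open Pool.Agent.P8H10.GC (nz_of_diff nz_div logCounting_entire)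
open Pool.Agent.P8H50.NK

theorem wr_diff' {n : ℕ} {g : Fin n → ℂ → ℂ} (hg : ∀ i, Differentiable ℂ (g i)) :
    Differentiable ℂ (wr g) := by
  have : wr g = fun z => ∑ σ : Equiv.Perm (Fin n), ((Equiv.Perm.sign σ : ℤ) : ℂ) *
        ∏ k : Fin n, iteratedDeriv k (g (σ k)) z := by
    funext z
    unfold wr
    rw [Matrix.det_apply']
    rfl
  rw [this]
  apply Differentiable.fun_sum
  intro σ _
  apply Differentiable.const_mul
  apply Differentiable.fun_finsetProd
  intro k _
  have h := (hg (σ k)).contDiff (n := ((k : ℕ) + 1 : ℕ))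
  exact h.differentiable_iteratedDeriv k (by exact_mod_cast Nat.lt_succ_self _)

theorem one_le_prod' {ι : Type*} (s : Finset ι) {f : ι → ℝ} (h : ∀ i, 1 ≤ f i) :
    1 ≤ ∏ i ∈ s, f i := by
  calc (1 : ℝ) = ∏ _i ∈ s, (1 : ℝ) := by rw [Finset.prod_const_one]
    _ ≤ _ := Finset.prod_le_prod (fun _ _ => zero_le_one) (fun i _ => h i)

theorem le_prod_one {ι : Type*} [Fintype ι] {f : ι → ℝ} (h : ∀ i, 1 ≤ f i) (j : ι) :
    f j ≤ ∏ i, f i := by
  classical
  rw [← Finset.mul_prod_erase Finset.univ f (Finset.mem_univ j)]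
  have h1 := one_le_prod' (Finset.univ.erase j) h
  have h2 : 0 ≤ f j := by linarith [h j]
  nlinarith

theorem det_posLog {n : ℕ} (A : Matrix (Fin n) (Fin n) ℂ) :
    log⁺ ‖A.det‖ ≤ log (n.factorial) + n * ∑ i, ∑ l, log⁺ ‖A i l‖ := by
  set P : ℝ := ∏ i, ∏ l, max 1 ‖A i l‖ with hP
  have h1 : ∀ i l, 1 ≤ max 1 ‖A i l‖ := fun i l => le_max_left _ _
  have h2 : ∀ i, 1 ≤ ∏ l, max 1 ‖A i l‖ := fun i => one_le_prod' _ (h1 i)
  have hP1 : 1 ≤ P := one_le_prod' _ h2
  have hx : ∀ i l, (NormedField.toAbsoluteValue ℂ) (A i l) ≤ P := by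
    intro i l
    show ‖A i l‖ ≤ P
    exact (le_max_right 1 _).trans ((le_prod_one (h1 i) l).trans (le_prod_one h2 i))
  have h3 := Matrix.det_le hx
  rw [Fintype.card_fin, nsmul_eq_mul] at h3
  have h3' : ‖A.det‖ ≤ (n.factorial : ℝ) * P ^ n := h3
  have hf : (1 : ℝ) ≤ n.factorial := by exact_mod_cast Nat.one_le_iff_ne_zero.2 n.factorial_ne_zero
  have hPn : 1 ≤ P ^ n := one_le_pow₀ hP1
  have h4 := posLog_le_posLog (norm_nonneg _) h3'
  rw [posLog_eq_log_max_one (by positivity : (0 : ℝ) ≤ (n.factorial : ℝ) * P ^ n),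
    max_eq_right (by nlinarith), log_mul (by positivity) (by positivity), log_pow] at h4
  refine h4.trans (le_of_eq ?_)
  congr 2
  rw [hP, log_prod (fun i _ => by have := h2 i; positivity)]
  refine Finset.sum_congr rfl fun i _ => ?_
  rw [log_prod (fun l _ => by have := h1 i l; positivity)]
  refine Finset.sum_congr rfl fun l _ => ?_
  rw [posLog_eq_log_max_one (norm_nonneg _)]

theorem prx : S_LDH → S_CHR → S_QUO → S_PRX := by
  intro hldh hchr hquo n f hf B hB
  rcases n with _ | m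
  · obtain ⟨i, _⟩ := hf.nz 0
    exact i.elim0
  set g : Fin (m + 1) → ℂ → ℂ := fun i => lf (B i) f with hg
  have hgd : ∀ i, Differentiable ℂ (g i) := fun i => lf_diff (B i) hf.diff
  have hgne : ∀ i, ∃ z, g i z ≠ 0 := by
    intro i
    by_contra hcon
    push Not at hcon
    have h1 : B i = 0 := hf.ind (B i) hcon
    apply hB
    exact Matrix.det_eq_zero_of_row_eq_zero i (fun j => by rw [Matrix.of_apply, h1]; rfl)
  set h : Fin (m + 1) → ℂ → ℂ := fun i z => g i z / g 0 z with hh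
  have hhm : ∀ i, Meromorphic (h i) := fun i => by
    have : h i = g i * (g 0)⁻¹ := by funext z; simp [hh, div_eq_mul_inv]
    rw [this]
    exact (mero_of_diff (hgd i)).mul (mero_of_diff (hgd 0)).inv
  have hhz : ∀ i, NZ (h i) := fun i => nz_div (mero_of_diff (hgd i)) (mero_of_diff (hgd 0))
    (nz_of_diff (hgd i) (hgne i)) (nz_of_diff (hgd 0) (hgne 0))
  choose E C hE hC hl using fun p : Fin (m + 1) × Fin (m + 1) =>
    hldh (h p.1) (hhm p.1) (hhz p.1) (p.2 : ℕ)
  choose D hD hchar using fun i => hchr (m + 1) f hf (B i) (B 0) (hgne i) (hgne 0)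
  set F : ℝ := log ((m + 1).factorial) with hF
  have hF0 : 0 ≤ F := log_nonneg (by
    exact_mod_cast Nat.one_le_iff_ne_zero.2 (m + 1).factorial_ne_zero)
  have hsC : 0 ≤ ∑ p, C p := Finset.sum_nonneg fun p _ => hC p
  have hsD : 0 ≤ ∑ i, D i := Finset.sum_nonneg fun i _ => hD i
  set K : ℝ := F + ((m + 1 : ℕ) : ℝ) * (∑ p, C p) + ∑ i, D i with hK
  have hK0 : 0 ≤ K := by positivity
  have hDK : ∀ i, D i ≤ K := fun i => by
    have h1 := Finset.single_le_sum (f := D) (fun i _ => hD i) (Finset.mem_univ i)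
    have h2 : 0 ≤ ((m + 1 : ℕ) : ℝ) * (∑ p, C p) := by positivity
    linarith
  refine ⟨⋃ p, E p, K, ?_, hK0, fun r hr hrE => ?_⟩
  · refine lt_of_le_of_lt (measure_iUnion_fintype_le volume E) ?_
    exact ENNReal.sum_lt_top.2 fun l _ => hE l
  have hrE' : ∀ p, r ∉ E p := fun p h => hrE (mem_iUnion.2 ⟨p, h⟩)
  have hr0 : r ≠ 0 := by linarith
  have ht0 : 0 ≤ tau f r + K := by
    have h1 := hchar 0 r hr
    have h2 : 0 ≤ characteristic (fun z => lf (B 0) f z / lf (B 0) f z) ⊤ r :=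
      characteristic_nonneg hr
    have := hDK 0
    linarith
  refine ⟨ht0, ?_⟩
  have hlr : 0 ≤ log r := log_nonneg hr
  have hlt : 0 ≤ log (1 + K + tau f r) := log_nonneg (by linarith)
  have hprox : ∀ p, proximity (fun z => iteratedDeriv (p.2 : ℕ) (h p.1) z / h p.1 z) ⊤ r ≤
      C p * (1 + log r + log (1 + K + tau f r)) := by
    intro p
    refine (hl p r hr (hrE' p)).trans (mul_le_mul_of_nonneg_left ?_ (hC p))
    have h1 := hchar p.1 r hr
    have h2 : 0 ≤ characteristic (h p.1) ⊤ r := characteristic_nonneg hr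
    have h3 := hDK p.1
    have h4 : log (1 + characteristic (h p.1) ⊤ r) ≤ log (1 + K + tau f r) := by
      apply log_le_log (by linarith)
      have : characteristic (h p.1) ⊤ r ≤ tau f r + D p.1 := h1
      linarith
    linarith
  -- circle integrability
  have hmer : ∀ i (l : ℕ), Meromorphic (fun z => iteratedDeriv l (h i) z / h i z) := by
    intro i l
    have hm : Meromorphic (iteratedDeriv l (h i)) := by
      induction l with
      | zero => rw [iteratedDeriv_zero]; exact hhm i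
      | succ l ih => rw [iteratedDeriv_succ]; exact ih.deriv
    have e : (fun z => iteratedDeriv l (h i) z / h i z) = iteratedDeriv l (h i) * (h i)⁻¹ := by
      funext z; simp [div_eq_mul_inv]
    rw [e]; exact hm.mul (hhm i).inv
  have i1 : CircleIntegrable (fun z => log⁺ ‖wr g z / ∏ i, g i z‖) 0 r := by
    apply ci_posLog
    have hp : Differentiable ℂ (fun z => ∏ i, g i z) :=
      Differentiable.fun_finsetProd fun i _ => hgd i
    have e : (fun z => wr g z / ∏ i, g i z) = wr g * (fun z => ∏ i, g i z)⁻¹ := by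
      funext z; simp [div_eq_mul_inv]
    rw [e]
    exact (mero_of_diff (wr_diff' hgd)).mul (mero_of_diff hp).inv
  have i2 : ∀ p : Fin (m + 1) × Fin (m + 1), CircleIntegrable
      (fun z => log⁺ ‖iteratedDeriv (p.2 : ℕ) (h p.1) z / h p.1 z‖) 0 r := fun p =>
    ci_posLog (hmer p.1 p.2) r
  have i2s : CircleIntegrable (fun z => ∑ p : Fin (m + 1) × Fin (m + 1),
      log⁺ ‖iteratedDeriv (p.2 : ℕ) (h p.1) z / h p.1 z‖) 0 r :=
    CircleIntegrable.fun_sum _ fun p _ => i2 p
  have i3 : CircleIntegrable (fun _ : ℂ => F) 0 r := circleIntegrable_const _ _ _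
  have i4 : CircleIntegrable (fun z => ((m + 1 : ℕ) : ℝ) * ∑ p : Fin (m + 1) × Fin (m + 1),
      log⁺ ‖iteratedDeriv (p.2 : ℕ) (h p.1) z / h p.1 z‖) 0 r := ci_const_mul _ i2s
  have hint := circleAverage_mono_codiscrete hr0 i1 (i3.add i4) (by
    have h1 : ∀ i, ∀ᶠ z in codiscreteWithin (sphere (0 : ℂ) |r|), g i z ≠ 0 := fun i => by
      obtain ⟨w, hw⟩ := hgne i
      exact ne_cod (hgd i) hw r
    filter_upwards [eventually_all.2 h1] with z hz
    rw [hquo m g hgd z hz]
    refine (det_posLog _).trans (le_of_eq ?_)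
    rw [Pi.add_apply]
    congr 1
    congr 1
    rw [Fintype.sum_prod_type]
    rfl)
  refine hint.trans ?_
  have e1 : circleAverage ((fun _ : ℂ => F) + fun z => ((m + 1 : ℕ) : ℝ) *
      ∑ p : Fin (m + 1) × Fin (m + 1),
      log⁺ ‖iteratedDeriv (p.2 : ℕ) (h p.1) z / h p.1 z‖) 0 r =
      F + ((m + 1 : ℕ) : ℝ) * ∑ p : Fin (m + 1) × Fin (m + 1),
        proximity (fun z => iteratedDeriv (p.2 : ℕ) (h p.1) z / h p.1 z) ⊤ r := by
    rw [circleAverage_add i3 i4, circleAverage_const, ca_const_mul,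
      circleAverage_fun_sum (fun p _ => i2 p)]
    simp only [proximity_top]
  rw [e1]
  have hA : 1 ≤ 1 + log r + log (1 + K + tau f r) := by linarith
  have hsum : ∑ p : Fin (m + 1) × Fin (m + 1),
      proximity (fun z => iteratedDeriv (p.2 : ℕ) (h p.1) z / h p.1 z) ⊤ r ≤
      (∑ p, C p) * (1 + log r + log (1 + K + tau f r)) := by
    rw [Finset.sum_mul]
    exact Finset.sum_le_sum fun p _ => hprox p
  have hm0 : (0 : ℝ) ≤ ((m + 1 : ℕ) : ℝ) := Nat.cast_nonneg _
  have h5 := mul_le_mul_of_nonneg_left hsum hm0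
  have h6 : F ≤ F * (1 + log r + log (1 + K + tau f r)) := le_mul_of_one_le_right hF0 hA
  have h7 : 0 ≤ (∑ i, D i) * (1 + log r + log (1 + K + tau f r)) := mul_nonneg hsD (by linarith)
  have h8 : K * (1 + log r + log (1 + K + tau f r)) =
      F * (1 + log r + log (1 + K + tau f r)) + ((m + 1 : ℕ) : ℝ) *
        ((∑ p, C p) * (1 + log r + log (1 + K + tau f r))) +
        (∑ i, D i) * (1 + log r + log (1 + K + tau f r)) := by
    conv_lhs => rw [hK]
    ring
  linarith

end Pool.Agent.P8H52.NK
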