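import Pool.Agent.P8H50.NK.Stm
import Pool.Agent.H159R3.NV.Det

/-!
# Project NK (helper50), package QUO: the Wronskian divided by the product
-/

set_option autoImplicit false

namespace Pool.Agent.P8H52.NK

open Set Filter Topology
open Pool.Agent.P8H50.NK

theorem quo : S_QUO := by
  intro n g hg z hz
  have hz0 := hz 0
  have hh : ∀ i, AnalyticAt ℂ (fun w => g i w / g 0 w) z := fun i =>
    ((hg i).analyticAt z).div ((hg 0).analyticAt z) hz0
  have hsc := Pool.Agent.H159R3.NV.scale_det (g 0) (fun i w => g i w / g 0 w) z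
    ((hg 0).analyticAt z) hh
  have hev : ∀ᶠ w in 𝓝 z, g 0 w ≠ 0 := (hg 0).continuous.continuousAt.eventually_ne hz0
  have hder : ∀ (i : Fin (n + 1)) (l : ℕ), iteratedDeriv l (fun w => g 0 w * (g i w / g 0 w)) z =
      iteratedDeriv l (g i) z := by
    intro i l
    apply Filter.EventuallyEq.iteratedDeriv_eq
    filter_upwards [hev] with w hw
    field_simp
  have e1 : wr g z = (g 0 z) ^ (n + 1) * (Matrix.of fun b l : Fin (n + 1) =>
      iteratedDeriv l (fun w => g b w / g 0 w) z).det := by
    rw [← hsc]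
    unfold wr
    congr 1
    ext b l
    rw [Matrix.of_apply, Matrix.of_apply, hder]
  have e2 : (Matrix.of fun b l : Fin (n + 1) =>
      iteratedDeriv l (fun w => g b w / g 0 w) z) = Matrix.of fun i l : Fin (n + 1) =>
        (g i z / g 0 z) * (Matrix.of fun i l : Fin (n + 1) =>
          iteratedDeriv l (fun w => g i w / g 0 w) z / (g i z / g 0 z)) i l := by
    ext i l
    simp only [Matrix.of_apply]
    have h3 : g i z / g 0 z ≠ 0 := div_ne_zero (hz i) hz0
    rw [mul_div_cancel₀ _ h3]
  rw [e2, Matrix.det_mul_column] at e1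
  rw [e1]
  have e3 : ∏ i, (g i z / g 0 z) = (∏ i, g i z) / (g 0 z) ^ (n + 1) := by
    rw [Finset.prod_div_distrib, Finset.prod_const, Finset.card_univ, Fintype.card_fin]
  rw [e3]
  have h4 : ∏ i, g i z ≠ 0 := Finset.prod_ne_zero_iff.2 fun i _ => hz i
  have h5 : (g 0 z) ^ (n + 1) ≠ 0 := pow_ne_zero _ hz0
  generalize (Matrix.of fun i l : Fin (n + 1) =>
      iteratedDeriv l (fun w => g i w / g 0 w) z / (g i z / g 0 z)).det = d
  field_simp

end Pool.Agent.P8H52.NK
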